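import Pool.Agent.Helper24.AL.St
import Pool.Agent.Helper28.PC.N3

set_option autoImplicit false

namespace Pool.Agent.Helper47.AL

open Finset Pool.Agent.Helper24.AL
open Pool.Agent.Helper56.SW (τ)

/-- the case with a zero coordinate -/
lemma case_O {c A B D K : ℝ} (hc : 1 ≤ c) (hA : 1 ≤ A) (hAB : A ≤ B) (hK : 1 ≤ K)
    (hBK : B ≤ K * c) (hD : 1 ≤ D) :
    3 * c * ((2 * A + 1) + (2 * B + 1) + 4 * D * A * B / c) * (2 * A / c + 1) * (2 * B / c + 1) *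
        ((2 * A + 1) + (2 * B + 1)) ≤ 1620 * D * K ^ 3 * (c * B ^ 2) := by
  have hc0 : 0 < c := by linarith
  have hB0 : 0 < B := by linarith
  have hK0 : 0 < K := by linarith
  have hD0 : 0 < D := by linarith
  have h1 : (2 * A + 1) + (2 * B + 1) ≤ 6 * B := by linarith
  have h2 : 4 * D * A * B / c ≤ 4 * D * K * B := by
    rw [div_le_iff₀ hc0]
    have h3 : A ≤ K * c := by linarith
    have h4 : 4 * D * B * A ≤ 4 * D * B * (K * c) := mul_le_mul_of_nonneg_left h3 (by positivity)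
    linarith
  have hDK : 1 ≤ D * K := by nlinarith
  have h5 : (2 * A + 1) + (2 * B + 1) + 4 * D * A * B / c ≤ 10 * D * K * B := by
    have h6 : 6 * B ≤ 6 * (D * K) * B := by nlinarith
    linarith
  have h7 : ∀ x : ℝ, x ≤ B → 2 * x / c + 1 ≤ 3 * K := by
    intro x hx
    have h8 : 2 * x / c ≤ 2 * K := by
      rw [div_le_iff₀ hc0]
      linarith
    linarith
  have h9 : 0 ≤ 2 * A / c + 1 := by positivity
  have h10 : 0 ≤ 2 * B / c + 1 := by positivity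
  have h11 : 0 ≤ (2 * A + 1) + (2 * B + 1) + 4 * D * A * B / c := by positivity
  calc 3 * c * ((2 * A + 1) + (2 * B + 1) + 4 * D * A * B / c) * (2 * A / c + 1) * (2 * B / c + 1) *
        ((2 * A + 1) + (2 * B + 1)) ≤ 3 * c * (10 * D * K * B) * (3 * K) * (3 * K) * (6 * B) := by
        gcongr
        · exact h7 A hAB
        · exact h7 B le_rfl
    _ = 1620 * D * K ^ 3 * (c * B ^ 2) := by ring

theorem hS6 (hO : StO) (hC : StC) (hZ : StZ) (hB : StB) (hT : StT) (hG : StG) (hINEQ : StINEQ)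
    (hSPLIT : StSPLIT) : StS6 := by
  intro K ε hK hε
  obtain ⟨C0, hC0, hdiv⟩ := Pool.Agent.Helper28.PC.N3 (ε / 10) (by positivity)
  have hK0 : 0 < K := by linarith
  have hC00 : 0 < C0 := by linarith
  set CD : ℝ := C0 * (3 * K ^ 2) ^ (ε / 10) with hCD
  set CL : ℝ := 1 + K ^ (ε / 5) / (ε / 5) with hCL
  have h3K : (1 : ℝ) ≤ (3 * K ^ 2) ^ (ε / 10) := Real.one_le_rpow (by nlinarith) (by positivity)
  have hCD1 : 1 ≤ CD := by rw [hCD]; nlinarith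
  have hCD0 : 0 < CD := by linarith
  have hCL0 : 0 < CL := by rw [hCL]; positivity
  refine ⟨1620 * CD * K ^ 3 + 32 * CL + 288 * C0 * K + 64 * CD ^ 2 * C0 + 3456 * K * CD ^ 2 * C0 ^ 2 +
    43200 * CD ^ 2 * C0 ^ 2 * CL, by positivity, ?_⟩
  intro c A B hc hA hAB hBK
  have hcR : (1 : ℝ) ≤ c := by exact_mod_cast hc
  have hc0 : (0 : ℝ) < c := by linarith
  have hAR : (1 : ℝ) ≤ A := by exact_mod_cast hA
  have hABR : (A : ℝ) ≤ B := by exact_mod_cast hAB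
  have hBR : (1 : ℝ) ≤ B := by linarith
  have hB1 : 1 ≤ B := hA.trans hAB
  set P : ℝ := (c : ℝ) ^ (ε / 5) with hP
  have hP1 : 1 ≤ P := Real.one_le_rpow hcR (by positivity)
  have hP0 : 0 < P := by linarith
  have hP5 : P ^ 5 = (c : ℝ) ^ ε := by
    rw [hP, ← Real.rpow_natCast, ← Real.rpow_mul hc0.le]
    congr 1
    push_cast
    ring
  have hPc : (c : ℝ) ^ (ε / 10) ≤ P := Real.rpow_le_rpow_of_exponent_le hcR (by linarith)
  have hP2 : ((c : ℝ) ^ 2) ^ (ε / 10) = P := by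
    rw [← Real.rpow_natCast, ← Real.rpow_mul hc0.le, hP]
    congr 1
    push_cast
    ring
  set D : ℝ := CD * P with hDdef
  have hD1 : 1 ≤ D := by rw [hDdef]; nlinarith
  have hD0 : 0 < D := by linarith
  have hDj : ∀ j : ℕ, 1 ≤ j → j ≤ 3 * A * B → τ j ≤ D := by
    intro j hj1 hj2
    have hj2' : (j : ℝ) ≤ 3 * A * B := by exact_mod_cast hj2
    have h1 : (j : ℝ) ≤ 3 * K ^ 2 * (c : ℝ) ^ 2 := by
      have h2 : (A : ℝ) * B ≤ (K * c) * (K * c) :=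
        mul_le_mul (hABR.trans hBK) hBK (by positivity) (by positivity)
      nlinarith
    have h3 : (j : ℝ) ^ (ε / 10) ≤ (3 * K ^ 2 * (c : ℝ) ^ 2) ^ (ε / 10) :=
      Real.rpow_le_rpow (by positivity) h1 (by positivity)
    rw [Real.mul_rpow (by positivity) (by positivity), hP2] at h3
    calc τ j ≤ C0 * (j : ℝ) ^ (ε / 10) := hdiv j hj1
      _ ≤ C0 * ((3 * K ^ 2) ^ (ε / 10) * P) := mul_le_mul_of_nonneg_left h3 hC00.le
      _ = D := by rw [hDdef, hCD]; ring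
  have hDj' : ∀ j : ℕ, 1 ≤ j → j ≤ A * B → τ j ≤ D := fun j h1 h2 => hDj j h1 (by nlinarith)
  have hτ0 : 0 ≤ τ c := by unfold τ; positivity
  have hτ : τ c ≤ C0 * P := (hdiv c hc).trans (mul_le_mul_of_nonneg_left hPc hC00.le)
  have hl0 : 0 ≤ Real.log A := Real.log_nonneg hAR
  have hl : 1 + Real.log A ≤ CL * P := by
    have h1 : Real.log A ≤ (A : ℝ) ^ (ε / 5) / (ε / 5) :=
      Real.log_le_rpow_div (by positivity) (by positivity)
    have h2 : (A : ℝ) ^ (ε / 5) ≤ (K * c) ^ (ε / 5) :=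
      Real.rpow_le_rpow (by positivity) (hABR.trans hBK) (by positivity)
    rw [Real.mul_rpow hK0.le hc0.le] at h2
    have h3 : (A : ℝ) ^ (ε / 5) / (ε / 5) ≤ K ^ (ε / 5) * P / (ε / 5) :=
      div_le_div_of_nonneg_right h2 (by positivity)
    have h4 : CL * P = P + K ^ (ε / 5) * P / (ε / 5) := by rw [hCL]; ring
    linarith
  set Y : ℝ := c * (B : ℝ) ^ 2 + ((A : ℝ) * B) ^ 3 / (c : ℝ) ^ 2 with hY
  have hY0 : 0 < Y := by rw [hY]; positivity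
  have hY1 : (c : ℝ) * (B : ℝ) ^ 2 ≤ Y := by rw [hY]; linarith [show 0 ≤ ((A : ℝ) * B) ^ 3 / (c : ℝ) ^ 2 by positivity]
  have hY2 : ((A : ℝ) * B) ^ 3 / (c : ℝ) ^ 2 ≤ Y := by rw [hY]; linarith [show 0 ≤ (c : ℝ) * (B : ℝ) ^ 2 by positivity]
  obtain ⟨i1, i2, i3, i4⟩ := hINEQ c A B K hc hA hAB hK hBK
  have hPn : ∀ n : ℕ, n ≤ 5 → P ^ n ≤ P ^ 5 := fun n hn => pow_le_pow_right₀ hP1 hn
  have bO : (WT c A B (fun t b => ¬ Nz t b) : ℝ) ≤ 1620 * CD * K ^ 3 * (P ^ 5 * Y) := by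
    refine (hO c A B D hc hDj').trans ((case_O hcR hAR hABR hK hBK hD1).trans ?_)
    calc 1620 * D * K ^ 3 * (c * (B : ℝ) ^ 2) ≤ 1620 * (CD * P ^ 5) * K ^ 3 * Y := by
          have : D ≤ CD * P ^ 5 := by
            rw [hDdef]
            exact mul_le_mul_of_nonneg_left (by simpa using hPn 1 (by norm_num)) hCD0.le
          gcongr
      _ = 1620 * CD * K ^ 3 * (P ^ 5 * Y) := by ring
  have bC : (WT c A B (fun t b => Nz t b ∧ Col t b) : ℝ) ≤ (32 * CL + 288 * C0 * K) * (P ^ 5 * Y) := by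
    refine (hC c A B hc hA hB1).trans ?_
    have h1 : 32 * (c : ℝ) * A * B * (1 + Real.log A) ≤ 32 * CL * (P ^ 5 * Y) := by
      calc 32 * (c : ℝ) * A * B * (1 + Real.log A) ≤ 32 * (c : ℝ) * B * B * (CL * P) := by
            gcongr
        _ = 32 * CL * (P ^ 1 * (c * (B : ℝ) ^ 2)) := by ring
        _ ≤ 32 * CL * (P ^ 5 * Y) := by
            have := hPn 1 (by norm_num)
            gcongr
    have h2 : 288 * τ c * (A : ℝ) ^ 2 * B ≤ 288 * C0 * K * (P ^ 5 * Y) := by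
      calc 288 * τ c * (A : ℝ) ^ 2 * B = 288 * τ c * ((A : ℝ) ^ 2 * B) := by ring
        _ ≤ 288 * (C0 * P) * (K * (c * (B : ℝ) ^ 2)) := by gcongr
        _ = 288 * C0 * K * (P ^ 1 * (c * (B : ℝ) ^ 2)) := by ring
        _ ≤ 288 * C0 * K * (P ^ 5 * Y) := by
            have := hPn 1 (by norm_num)
            gcongr
    linarith
  have bZ : (WT c A B (fun t b => Nz t b ∧ ¬ Col t b ∧ sg t = 0 ∧ sg b = 0) : ℝ) ≤
      64 * CD ^ 2 * C0 * (P ^ 5 * Y) := by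
    refine (hZ c A B D hc hDj').trans ?_
    calc 64 * D ^ 2 * τ c * ((A : ℝ) * B) ^ 2 / Real.sqrt c
        = 64 * D ^ 2 * τ c * (((A : ℝ) * B) ^ 2 / Real.sqrt c) := by ring
      _ ≤ 64 * D ^ 2 * (C0 * P) * Y := by gcongr
      _ = 64 * CD ^ 2 * C0 * (P ^ 3 * Y) := by rw [hDdef]; ring
      _ ≤ 64 * CD ^ 2 * C0 * (P ^ 5 * Y) := by
          have := hPn 3 (by norm_num)
          gcongr
  have key : ∀ x : ℝ, x ≤ 3 * K * Y → 576 * D ^ 2 * τ c ^ 2 * x ≤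
      1728 * K * CD ^ 2 * C0 ^ 2 * (P ^ 5 * Y) := by
    intro x hx
    calc 576 * D ^ 2 * τ c ^ 2 * x ≤ 576 * D ^ 2 * (C0 * P) ^ 2 * (3 * K * Y) := by
          have h1 : 576 * D ^ 2 * τ c ^ 2 * x ≤ 576 * D ^ 2 * τ c ^ 2 * (3 * K * Y) :=
            mul_le_mul_of_nonneg_left hx (by positivity)
          refine h1.trans ?_
          gcongr
      _ = 1728 * K * CD ^ 2 * C0 ^ 2 * (P ^ 4 * Y) := by rw [hDdef]; ring
      _ ≤ 1728 * K * CD ^ 2 * C0 ^ 2 * (P ^ 5 * Y) := by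
          have := hPn 4 (by norm_num)
          gcongr
  have bB := (hB c A B D hc hB1 hDj').trans (key _ i2)
  have bT := (hT c A B D hc hA hDj').trans (key _ i3)
  have bG : (WT c A B (fun t b => Nz t b ∧ ¬ Col t b ∧ sg t ≠ 0 ∧ sg b ≠ 0) : ℝ) ≤
      43200 * CD ^ 2 * C0 ^ 2 * CL * (P ^ 5 * Y) := by
    refine (hG c A B D hc hA hB1 hDj).trans ?_
    calc 43200 * D ^ 2 * τ c ^ 2 * (1 + Real.log A) * ((A : ℝ) * B) ^ 3 / (c : ℝ) ^ 2
        = 43200 * D ^ 2 * τ c ^ 2 * (1 + Real.log A) * (((A : ℝ) * B) ^ 3 / (c : ℝ) ^ 2) := by ring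
      _ ≤ 43200 * D ^ 2 * (C0 * P) ^ 2 * (CL * P) * Y := by gcongr
      _ = 43200 * CD ^ 2 * C0 ^ 2 * CL * (P ^ 5 * Y) := by rw [hDdef]; ring
  have hs : (∑ l ∈ Us c, (Q6 c l A B : ℝ)) =
      (WT c A B (fun t b => ¬ Nz t b) : ℝ) + (WT c A B (fun t b => Nz t b ∧ Col t b) : ℝ) +
      (WT c A B (fun t b => Nz t b ∧ ¬ Col t b ∧ sg t = 0 ∧ sg b = 0) : ℝ) +
      (WT c A B (fun t b => Nz t b ∧ ¬ Col t b ∧ sg t = 0 ∧ sg b ≠ 0) : ℝ) +
      (WT c A B (fun t b => Nz t b ∧ ¬ Col t b ∧ sg t ≠ 0 ∧ sg b = 0) : ℝ) +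
      (WT c A B (fun t b => Nz t b ∧ ¬ Col t b ∧ sg t ≠ 0 ∧ sg b ≠ 0) : ℝ) := by
    exact_mod_cast hSPLIT c A B
  rw [hs, ← hP5]
  linarith

end Pool.Agent.Helper47.AL
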